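import Mathlib
import Pool.Agent.W2helper16.SM.Conv

/-!
# The maximal operator of the `L^q` means over the radii of the ball partial sums

Let `f ∈ L²(ℝⁿ)` and let `G` be its Fourier transform. Question Q1 asks whether the supremum over
all radii of `|S_R f|` is bounded on `L²`. Here the supremum, which is the limit `q → ∞` of
`L^q` means over the radii `0 < R ≤ T`, is replaced by these means, for all `T > 0` at once:

  `‖ sup_{T > 0} ( (1/T) ∫_0^T |S_R f(x)|^q dR )^(1/q) ‖_2 ≤ C_n q ‖f‖_2`,  `2 ≤ q < ∞`.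

Q1 says that the factor `q` can be omitted. By the inequality of Chebyshev, with `q = log (1/η)`,
the supremum over all radii costs at most a factor `C_n log (1/η)` if at every point `x` and at
every scale `T` a proportion `η` of the radii `R ≤ T` may be discarded.

Moreover for almost every `x` the `L^q` means of `S_R f(x) - f(x)` over `0 < R ≤ T` tend to zero as
`T → ∞`, for all `q` simultaneously; in particular `S_R f(x) → f(x)` if `R → ∞` outside of a set of
radii (depending on `x`) of density zero.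

Proof: dyadic chaining over the radii of a dyadic block. At the level `j` the differences of the
partial sums over the `2^j` intervals are orthogonal, and their `L^q` mean over the radii gains a
factor `2^(-j/q)`; the sum over `j` is `O(q)`. The dyadic partial sums are compared with Gaussian
means, which are bounded by the maximal function of Hardy and Littlewood.
-/

set_option autoImplicit false

open MeasureTheory Metric Filter Topology Set
open scoped ENNReal NNReal RealInnerProductSpace

namespace Pool.Agent.Results.MP_ee701d_an.MeansOverRadii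

/-- Euclidean space -/
abbrev E (n : ℕ) := EuclideanSpace ℝ (Fin n)

/-- the ball partial sum `S_R f(x)` of the function `f` with Fourier transform `G` -/
noncomputable def S {n : ℕ} (G : E n → ℂ) (R : ℝ) (x : E n) : ℂ :=
  ∫ ξ in closedBall (0 : E n) R, Complex.exp (2 * Real.pi * Complex.I * ((⟪x, ξ⟫ : ℝ) : ℂ)) * G ξ

/-- the `L^q` mean `((1/T) ∫_0^T |h(R)|^q dR)^(1/q)` of a function of the radius -/
noncomputable def mean (q : ℝ) (h : ℝ → ℂ) (T : ℝ) : ℝ≥0∞ :=
  ((ENNReal.ofReal T)⁻¹ * ∫⁻ R in Ioc 0 T, ‖h R‖ₑ ^ q) ^ (1 / q)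

theorem result {n : ℕ} (hn : 1 ≤ n) :
    (∃ C : ℝ≥0, ∀ (q : ℝ) (G : E n → ℂ), 2 ≤ q → MemLp G 2 volume →
      ∫⁻ x, (⨆ (T : ℝ) (_ : 0 < T), mean q (fun R => S G R x) T) ^ 2 ≤
        C * ENNReal.ofReal (q ^ 2) * ∫⁻ ξ, ‖G ξ‖ₑ ^ 2) ∧
    ∀ G : E n → ℂ, MemLp G 2 volume → ∃ f : E n → ℂ, MemLp f 2 volume ∧
      Tendsto (fun R => ∫⁻ x, ‖S G R x - f x‖ₑ ^ 2) atTop (𝓝 0) ∧
      ∀ᵐ x : E n, ∀ q : ℝ, 0 < q →
        Tendsto (fun T => mean q (fun R => S G R x - f x) T) atTop (𝓝 0) := by
  obtain ⟨m, rfl⟩ : ∃ m, n = m + 1 := ⟨n - 1, by omega⟩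
  constructor
  · have hCt : 8 * (Pool.Agent.W2helper16.SM.cl m + 4) ≠ ⊤ :=
      ENNReal.mul_ne_top (by simp)
        (ENNReal.add_lt_top.2 ⟨Pool.Agent.W2helper16.SM.cl_lt m, by simp⟩).ne
    refine ⟨(8 * (Pool.Agent.W2helper16.SM.cl m + 4)).toNNReal, fun q G hq hG => ?_⟩
    rw [ENNReal.coe_toNNReal hCt]
    refine (lintegral_mono fun x => pow_le_pow_left' ?_ 2).trans
      (Pool.Agent.W2helper16.SM.Sm_int hG hq)
    exact iSup₂_le fun T hT => Pool.Agent.W2helper16.SM.Mq_le hG hq hT x
  · intro G hG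
    obtain ⟨f, hf, h1, h2⟩ := Pool.Agent.W2helper16.SM.strong_conv hG
    refine ⟨f, hf, h1, ?_⟩
    filter_upwards [h2] with x hx q hq
    have h3 := ((ENNReal.continuous_rpow_const (y := 1 / q)).tendsto 0).comp (hx q hq)
    rw [ENNReal.zero_rpow_of_pos (by positivity)] at h3
    exact h3

end Pool.Agent.Results.MP_ee701d_an.MeansOverRadii
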