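import Mathlib
import Pool.Agent.W2helper73.SC.Lm

/-!
# The maximal ball partial sums along the orbits of the Schrödinger group

Let `f ∈ L²(ℝⁿ)`, let `G` be its Fourier transform, and let `f_s`, `s ∈ ℝ`, be the orbit of `f`
under the flow of a nondegenerate diagonal quadratic form: the Fourier transform of `f_s` is
`exp (-i s ∑ c_j ξ_j²) G(ξ)`. With `c_j = 4π²` this is the Schrödinger group, `f_s = e^{isΔ} f`. Let
`D R`, `R ∈ ℝ`, be an increasing family of measurable sets of finite measure, for instance the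
closed balls of radius `R`, and let `S_R f_s` be the partial integral over `D R`. Question Q1 asks
whether the supremum over `R` of `|S_R g|`, for the balls, is bounded on `L²`. Here Q1 is studied on
average over the functions `g = f_s` of an orbit.

* *Maximal inequality.* Let `q > 1`, and let `μ` be a finite measure on the line of times whose
  potential `∫ |s-t|^(-n(q-1)) dμ(t)` is at most `M`. Then
  `(μ × vol) {(s,x) : sup_R |S_R f_s(x)| > l} ≤ C (M μ(ℝ))^(1/2) (‖f‖²/l²)^q` for all `l > 0`, and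
  `∫ ‖sup_R |S_R f_s| ‖²_{L²(B)} dμ(s) ≤ C (μ(ℝ) |B| + (M μ(ℝ))^(1/2)) ‖f‖²` for every set `B`.
* *Exceptional times.* For every `s` outside of a set of Hausdorff dimension zero, `S_R f_s(x)`
  converges for almost every `x`, to the limit in the mean of `S_R f_s`.

The sets `D R` are arbitrary. For a single function almost everywhere convergence can fail for
such families.

Proof: the bilinear form of the flow is bounded on `L²` and by the dispersive estimate on `L¹`;
interpolation, duality and the inequality of Hölder give the weak type bound for one set, and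
the chaining of Christ and Kiselev gives the supremum, since the exponent `2q` is larger than two.
For the exceptional times the set of times at which the maximal function is large on a ball is
open, and every open set of large dyadic content carries a measure of bounded potential.
-/

set_option autoImplicit false

open MeasureTheory Filter Topology Set
open scoped ENNReal NNReal RealInnerProductSpace

namespace Pool.Agent.Results.MP_ee701d_an.SchroedingerOrbits

/-- Euclidean space -/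
abbrev E (n : ℕ) := EuclideanSpace ℝ (Fin n)

/-- the partial integral `∫_D exp (2πi x·ξ) exp (-i s ∑ c_j ξ_j²) G(ξ) dξ`: the part with the
frequencies in `D` of the flow at the time `s`, starting from the function with Fourier
transform `G` -/
noncomputable def S {n : ℕ} (c : Fin n → ℝ) (G : E n → ℂ) (D : Set (E n)) (s : ℝ) (x : E n) : ℂ :=
  ∫ ξ in D, Complex.exp (2 * Real.pi * Complex.I * ((⟪x, ξ⟫ : ℝ) : ℂ)) *
    (Complex.exp (((-(s * ∑ j, c j * (ξ j) ^ 2) : ℝ) : ℂ) * Complex.I) * G ξ)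

theorem result {n : ℕ} (hn : 1 ≤ n) (c : Fin n → ℝ) (hc : ∀ j, c j ≠ 0) :
    (∀ q : ℝ, 1 < q → ∃ C : ℝ≥0, ∀ (μ : Measure ℝ) (M : ℝ≥0∞), μ univ < ⊤ →
      (∀ s, ∫⁻ t, ENNReal.ofReal |s - t| ^ (-((n : ℝ) * (q - 1))) ∂μ ≤ M) →
      ∀ (G : E n → ℂ) (D : ℝ → Set (E n)), MemLp G 2 volume → Monotone D →
        (∀ R, MeasurableSet (D R)) → (∀ R, volume (D R) < ⊤) →
        (∀ l : ℝ, 0 < l → (μ.prod volume) {z : ℝ × E n | ∃ R, l < ‖S c G (D R) z.1 z.2‖} ≤
          C * (M * μ univ) ^ (1 / 2 : ℝ) * ((∫⁻ ξ, ‖G ξ‖ₑ ^ 2) / ENNReal.ofReal l ^ 2) ^ q) ∧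
        ∀ B : Set (E n), ∫⁻ s, (∫⁻ x in B, (⨆ R, ‖S c G (D R) s x‖ₑ) ^ 2) ∂μ ≤
          C * (μ univ * volume B + (M * μ univ) ^ (1 / 2 : ℝ)) * ∫⁻ ξ, ‖G ξ‖ₑ ^ 2) ∧
    ∀ (G : E n → ℂ) (D : ℝ → Set (E n)), MemLp G 2 volume → Monotone D →
      (∀ R, MeasurableSet (D R)) → (∀ R, volume (D R) < ⊤) →
      dimH {s : ℝ | ¬ ∃ u : E n → ℂ, MemLp u 2 volume ∧
        Tendsto (fun R => ∫⁻ x, ‖S c G (D R) s x - u x‖ₑ ^ 2) atTop (𝓝 0) ∧
        ∀ᵐ x : E n, Tendsto (fun R => S c G (D R) s x) atTop (𝓝 (u x))} = 0 := by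
  constructor
  · intro q hq
    obtain ⟨e, C, he, he1, hC, heC⟩ := Pool.Agent.W2helper73.SC.consts hq
    set C1 : ℝ≥0∞ := ENNReal.ofReal C *
      ENNReal.ofReal (Pool.Agent.W2helper73.SC.kc c) ^ (q - 1) with hC1
    have hC1t : C1 ≠ ⊤ := ENNReal.mul_ne_top ENNReal.ofReal_ne_top
      (ENNReal.rpow_ne_top_of_nonneg (by linarith) ENNReal.ofReal_ne_top)
    have hcl := (Pool.Agent.W2helper73.SC.cl2_lt hq).ne
    set C2 : ℝ≥0∞ := Pool.Agent.W2helper73.SC.cl2 q * (1 + C1) with hC2
    have hC2t : C2 ≠ ⊤ := ENNReal.mul_ne_top hcl (ENNReal.add_ne_top.2 ⟨ENNReal.one_ne_top, hC1t⟩)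
    have hcl1 : 1 ≤ Pool.Agent.W2helper73.SC.cl2 q := le_self_add
    have h12 : C1 ≤ C2 := by
      calc C1 ≤ 1 * (1 + C1) := by rw [one_mul]; exact le_add_self
        _ ≤ _ := mul_le_mul' hcl1 le_rfl
    refine ⟨C2.toNNReal, fun μ M hμ hM G D hG hDD hDm hDv => ?_⟩
    rw [ENNReal.coe_toNNReal hC2t]
    have : IsFiniteMeasure μ := ⟨hμ⟩
    have hmass : ∫⁻ ξ, ‖G ξ‖ₑ ^ 2 = Pool.Agent.W2helper73.SC.mass G univ := by
      rw [Pool.Agent.W2helper73.SC.mass, setLIntegral_univ]
    have hmax : ∀ l : ℝ, 0 < l →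
        (μ.prod volume) {z : ℝ × E n | ∃ R, l < ‖S c G (D R) z.1 z.2‖} ≤
          C1 * (M * μ univ) ^ (1 / 2 : ℝ) * ((∫⁻ ξ, ‖G ξ‖ₑ ^ 2) / ENNReal.ofReal l ^ 2) ^ q := by
      intro l hl
      have h1 := Pool.Agent.W2helper73.SC.maxi (c := c) (ν := μ.prod volume)
        (K := Pool.Agent.W2helper73.SC.Q0 c μ M q) hq hG
        (fun _ hE hEv _ hl' => Pool.Agent.W2helper73.SC.wk hn hc hG hE hEv hq hM hl')
        he he1 hC heC hDm hDv hDD (fun R => Pool.Agent.W2helper73.SC.mass_mono
          (subset_univ (D R))) hl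
      refine h1.trans (le_of_eq ?_)
      rw [Pool.Agent.W2helper73.SC.Q0, hC1, hmass]
      ring
    refine ⟨fun l hl => (hmax l hl).trans ?_, fun B => ?_⟩
    · exact mul_le_mul' (mul_le_mul' h12 le_rfl) le_rfl
    · have hopen : ∀ l : ℝ, IsOpen {z : ℝ × E n | ∃ R, l < ‖S c G (D R) z.1 z.2‖} := fun l =>
        Pool.Agent.W2helper73.SC.maxi_open (c := c) hG hDm hDv l
      have hcont : ∀ R, Continuous fun z : ℝ × E n => S c G (D R) z.1 z.2 := fun R =>
        Pool.Agent.W2helper73.SC.W_cont (c := c) hG (hDm R) (hDv R)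
      have hF : Measurable fun z : ℝ × E n => ⨆ R, ‖S c G (D R) z.1 z.2‖ₑ :=
        (lowerSemicontinuous_iSup fun R => (hcont R).enorm.lowerSemicontinuous).measurable
      have hmem : ∀ (l : ℝ), 0 < l → {z : ℝ × E n | ENNReal.ofReal l < ⨆ R, ‖S c G (D R) z.1 z.2‖ₑ} =
          {z : ℝ × E n | ∃ R, l < ‖S c G (D R) z.1 z.2‖} := by
        intro l hl
        ext z
        change ENNReal.ofReal l < ⨆ R, ‖S c G (D R) z.1 z.2‖ₑ ↔ ∃ R, l < ‖S c G (D R) z.1 z.2‖
        rw [lt_iSup_iff]
        refine exists_congr fun R => ?_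
        rw [← ofReal_norm, ENNReal.ofReal_lt_ofReal_iff_of_nonneg hl.le]
      have hI : ∫⁻ ξ, ‖G ξ‖ₑ ^ 2 ≠ ⊤ := by
        rw [hmass]
        exact (Pool.Agent.W2helper73.SC.mass_lt hG univ).ne
      have hle : μ.prod (volume.restrict B) ≤ μ.prod volume := by
        have h1 := Measure.prod_restrict (μ := μ) (ν := (volume : Measure (E n))) univ B
        rw [Measure.restrict_univ] at h1
        rw [h1]
        exact Measure.restrict_le_self
      have h2 := Pool.Agent.W2helper73.SC.layer (ν := μ.prod (volume.restrict B))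
        (K := C1 * (M * μ univ) ^ (1 / 2 : ℝ)) hq hF hI (fun l hl => by
          rw [hmem l hl]
          exact (hle _).trans (hmax l hl)) univ
      rw [setLIntegral_univ, lintegral_prod _ (hF.pow_const 2).aemeasurable] at h2
      refine h2.trans (mul_le_mul' ?_ le_rfl)
      have h3 : (μ.prod (volume.restrict B)) univ = μ univ * volume B := by
        rw [← univ_prod_univ, Measure.prod_prod, Measure.restrict_apply_univ]
      rw [h3]
      set X := μ univ * volume B
      set Y := (M * μ univ) ^ (1 / 2 : ℝ)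
      have h4 : X + C1 * Y ≤ (1 + C1) * (X + Y) := by
        calc X + C1 * Y ≤ X + C1 * Y + (C1 * X + Y) := le_self_add
          _ = (1 + C1) * (X + Y) := by ring
      rw [hC2, mul_assoc (Pool.Agent.W2helper73.SC.cl2 q) (1 + C1)]
      exact mul_le_mul' le_rfl h4
  · intro G D hG hDD hDm hDv
    refine le_antisymm ((dimH_mono ?_).trans
      (Pool.Agent.W2helper73.SC.dim_bad (c := c) hn hc hG hDm hDv hDD).le) bot_le
    intro s hs h
    exact hs (Pool.Agent.W2helper73.SC.lim_l2 (c := c) hG hDm hDv hDD h)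

end Pool.Agent.Results.MP_ee701d_an.SchroedingerOrbits
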